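import Pool.Agent.R859.PA.All

set_option autoImplicit false

open Pool.Agent.R859.PA

/-- **Parameter arrays with prescribed dual eigenvalues and products.** Let `(θ; θ*; φ; ϕ)` be a
parameter array of diameter `d` over a field `K`. The parameter arrays `(θ'; θ*'; φ'; ϕ')` with
`θ*' = θ*` and `φ'_i ϕ'_i = φ_i ϕ_i` (`1 ≤ i ≤ d`) are exactly those listed. -/
theorem Pool.Agent.Results.MP_87d664_al.Classification.result {K : Type*} [Field K] {d : ℕ}
    {θ θs vphi phi : ℕ → K} (p : IsParameterArray d θ θs vphi phi)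
    (θ' θs' vphi' phi' : ℕ → K) :
    IsSolution d θs vphi phi θ' θs' vphi' phi' ↔
      (∀ i, i ≤ d → θs' i = θs i) ∧
      (d = 0 ∨ (d = 1 ∧ Sol1 θs vphi phi θ' vphi' phi') ∨
        (d = 2 ∧ Sol2 θs vphi phi θ' vphi' phi') ∨
        (3 ≤ d ∧ vt d θs 2 ≠ 0 ∧ SolI d θ θs phi θ' vphi' phi') ∨
        (∃ m, 1 ≤ m ∧ d = 2 * m + 1 ∧ vt d θs 2 = 0 ∧
          SolII m θ θs vphi phi θ' vphi' phi')) :=
  classification p θ' θs' vphi' phi'
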